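import Pool.Agent.Lib.MP_d7bfcb_an.Loops

open Set

namespace Pool.Agent.Lib.MP_d7bfcb_an

variable {n : ℕ}

/-- The coefficient `α(x)` of the barrier function `z - α(x) w²`. -/
noncomputable def alph (μ β x : ℝ) : ℝ := x * (-1 / 2 + μ - μ ^ 2 * Real.log (1 + β * x ^ 2))

/-- The derivative of `alph`. -/
noncomputable def alph' (μ β x : ℝ) : ℝ :=
  (-1 / 2 + μ - μ ^ 2 * Real.log (1 + β * x ^ 2)) - 2 * μ ^ 2 * (β * x ^ 2 / (1 + β * x ^ 2))

theorem hasDerivAt_alph {μ β : ℝ} (hβ : 0 < β) (x : ℝ) :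
    HasDerivAt (alph μ β) (alph' μ β x) x := by
  have hD : (0 : ℝ) < 1 + β * x ^ 2 := by positivity
  have h1 : HasDerivAt (fun x : ℝ => 1 + β * x ^ 2) (β * (2 * x)) x := by
    have := ((hasDerivAt_id x).pow 2).const_mul β |>.const_add 1
    refine HasDerivAt.congr_deriv this ?_
    simp
  have h2 := h1.log hD.ne'
  have h3 := (h2.const_mul (μ ^ 2)).const_sub (-1 / 2 + μ)
  have h4 := (hasDerivAt_id x).mul h3
  refine HasDerivAt.congr_deriv h4 ?_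
  unfold alph'
  simp only [id]
  field_simp
  ring

/-- The main algebraic inequality: along `F` the barrier decreases at most at a flat rate. -/
theorem key_F {μ β x v w g : ℝ} (hμ0 : 0 < μ) (hμ : μ ≤ 1 / 10) (hβ : 0 < β)
    (hlog : μ * Real.log (1 + β * x ^ 2) ≤ 2) (hv : |v| ≤ μ ^ 2) (hg : g ≤ μ ^ 2) :
    -(16 * μ ^ 6 / β) ≤ x ^ 2 * v ^ 2 - (1 / 4 + g) * w ^ 2 - alph' μ β x * w ^ 2 -
      2 * alph μ β x * w * v := by
  unfold alph alph'
  set L := Real.log (1 + β * x ^ 2) with hL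
  have hD1 : 1 ≤ 1 + β * x ^ 2 := by nlinarith [mul_nonneg hβ.le (sq_nonneg x)]
  have hL0 : 0 ≤ L := Real.log_nonneg hD1
  set D := 1 + β * x ^ 2 with hD
  have hD0 : 0 < D := by linarith
  have hθ : β * x ^ 2 / D = 1 - 1 / D := by
    rw [hD]
    field_simp
    ring
  rw [hθ]
  set θ := 1 / D with hθdef
  have hθ0 : 0 < θ := by positivity
  have hθ1 : θ ≤ 1 := by
    rw [hθdef, div_le_one hD0]
    exact hD1
  have hθx : θ * x ^ 2 ≤ 1 / β := by
    rw [hθdef, le_div_iff₀ hβ, div_mul_eq_mul_div, div_mul_eq_mul_div, div_le_one hD0, hD]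
    nlinarith
  set ρ := -1 / 2 + μ - μ ^ 2 * L with hρ
  have hLμ : μ ^ 2 * L ≤ 2 * μ := by nlinarith
  have hLμ0 : 0 ≤ μ ^ 2 * L := by positivity
  have hρ1 : (ρ + 1 / 2) ^ 2 ≤ μ ^ 2 := by
    have h1 : ρ + 1 / 2 = μ - μ ^ 2 * L := by rw [hρ]; ring
    rw [h1]
    exact sq_le_sq' (by linarith) (by linarith)
  set κ := -1 / 4 - g - ρ + 2 * μ ^ 2 * (1 - θ) with hκ
  have hκ1 : 1 / 8 ≤ κ := by
    have h1 : 0 ≤ 2 * μ ^ 2 * (1 - θ) := by
      have : 0 ≤ 1 - θ := by linarith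
      positivity
    have h2 : ρ ≤ -1 / 2 + μ := by linarith
    nlinarith
  have hκ2 : -(2 * μ ^ 2 * θ) ≤ κ - ρ ^ 2 := by
    have : κ - ρ ^ 2 = -(ρ + 1 / 2) ^ 2 - g + 2 * μ ^ 2 - 2 * μ ^ 2 * θ := by
      rw [hκ]; ring
    linarith
  set a := x * v with ha
  have hE : x ^ 2 * v ^ 2 - (1 / 4 + g) * w ^ 2 - (ρ - 2 * μ ^ 2 * (1 - θ)) * w ^ 2 -
      2 * (x * ρ) * w * v = a ^ 2 - 2 * ρ * a * w + κ * w ^ 2 := by
    rw [hκ, ha]; ring
  rw [hE]
  have hv2 : v ^ 2 ≤ μ ^ 4 := by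
    have h1 : v ^ 2 = |v| ^ 2 := (sq_abs v).symm
    have h2 : μ ^ 4 = (μ ^ 2) ^ 2 := by ring
    rw [h1, h2]
    exact pow_le_pow_left₀ (abs_nonneg v) hv 2
  have hkE : -(2 * μ ^ 6 / β) ≤ κ * (a ^ 2 - 2 * ρ * a * w + κ * w ^ 2) := by
    have h1 : κ * (a ^ 2 - 2 * ρ * a * w + κ * w ^ 2) =
        (κ * w - ρ * a) ^ 2 + (κ - ρ ^ 2) * a ^ 2 := by ring
    have h2 : -(2 * μ ^ 2 * θ) * a ^ 2 ≤ (κ - ρ ^ 2) * a ^ 2 :=
      mul_le_mul_of_nonneg_right hκ2 (sq_nonneg a)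
    have h3 : θ * a ^ 2 ≤ μ ^ 4 / β := by
      calc θ * a ^ 2 = (θ * x ^ 2) * v ^ 2 := by rw [ha]; ring
        _ ≤ (1 / β) * μ ^ 4 := by
          apply mul_le_mul hθx hv2 (sq_nonneg v) (by positivity)
        _ = μ ^ 4 / β := by ring
    have h4 : 2 * μ ^ 2 * (θ * a ^ 2) ≤ 2 * μ ^ 2 * (μ ^ 4 / β) :=
      mul_le_mul_of_nonneg_left h3 (by positivity)
    have h5 : 2 * μ ^ 2 * (μ ^ 4 / β) = 2 * μ ^ 6 / β := by ring
    have h6 : -(2 * μ ^ 2 * θ) * a ^ 2 = -(2 * μ ^ 2 * (θ * a ^ 2)) := by ring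
    rw [h1]
    rw [h6] at h2
    rw [h5] at h4
    have h7 := sq_nonneg (κ * w - ρ * a)
    linarith
  by_contra hcon
  push Not at hcon
  have h6 : 16 * μ ^ 6 / β = 8 * (2 * μ ^ 6 / β) := by ring
  have h7 : 0 < 2 * μ ^ 6 / β := by positivity
  rw [h6] at hcon
  set E := a ^ 2 - 2 * ρ * a * w + κ * w ^ 2 with hEdef
  have h8 : 0 ≤ -E := by linarith
  have h9 := mul_le_mul_of_nonneg_right hκ1 h8
  have h10 : κ * -E = -(κ * E) := by ring
  rw [h10] at h9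
  linarith

/-- The inequality along `B`. -/
theorem key_B {μ β x w : ℝ} (hμ0 : 0 < μ) (hμ : μ ≤ 1 / 10) (hβ : 0 < β)
    (hlog : μ * Real.log (1 + β * x ^ 2) ≤ 2) :
    0 ≤ w ^ 2 + alph' μ β x * w ^ 2 := by
  have h1 : -1 ≤ alph' μ β x := by
    unfold alph'
    have hD1 : 0 < 1 + β * x ^ 2 := by positivity
    have hθ : β * x ^ 2 / (1 + β * x ^ 2) ≤ 1 := by
      rw [div_le_one hD1]
      linarith
    have hLμ : μ ^ 2 * Real.log (1 + β * x ^ 2) ≤ 2 * μ := by nlinarith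
    nlinarith
  nlinarith [sq_nonneg w]

/-- The barrier function. -/
noncomputable def Phi (e : Fin 5 → Fin n) (μ β : ℝ) (q : EuclideanSpace ℝ (Fin n)) : ℝ :=
  q (e 4) - alph μ β (q (e 0)) * q (e 2) ^ 2

/-- The invariant at time `s`. -/
def Inv (e : Fin 5 → Fin n) (μ β : ℝ) (s : ℝ) (q : EuclideanSpace ℝ (Fin n)) : Prop :=
  |q (e 0)| ≤ s ∧ |q (e 1)| ≤ s ∧ |q (e 3)| ≤ s ∧ -(16 * μ ^ 6 / β * s) ≤ Phi e μ β q

theorem coord_hasDeriv {ξ : ℝ → EuclideanSpace ℝ (Fin n)} {ξ' : EuclideanSpace ℝ (Fin n)}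
    {A : Set ℝ} {s : ℝ} (h : HasDerivWithinAt ξ ξ' A s) (i : Fin n) :
    HasDerivWithinAt (fun r => ξ r i) (ξ' i) A s := by
  have h1 := PiLp.hasFDerivAt_apply (𝕜 := ℝ) (E := fun _ : Fin n => ℝ) 2 (ξ s) i
  exact h1.comp_hasDerivWithinAt s h

theorem inv_piece {e : Fin 5 → Fin n} (he : Function.Injective e) {μ β : ℝ} (hμ0 : 0 < μ)
    (hμ : μ ≤ 1 / 10) (hβ : 0 < β) (hlog : μ * Real.log (1 + β * (μ ^ 2) ^ 2) ≤ 2)
    {X : EuclideanSpace ℝ (Fin n) → EuclideanSpace ℝ (Fin n)} (hX : X ∈ fieldSet e)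
    {a b : ℝ} (hb : b ≤ μ ^ 2) {ξ : ℝ → EuclideanSpace ℝ (Fin n)}
    (hξ : ∀ s ∈ Icc a b, HasDerivWithinAt ξ (X (ξ s)) (Icc a b) s)
    (hinv : Inv e μ β a (ξ a)) {s : ℝ} (hs : s ∈ Icc a b) : Inv e μ β s (ξ s) := by
  obtain ⟨h0, h1, h3, hΦ⟩ := hinv
  have ha' : a ∈ Icc a b := ⟨le_rfl, hs.1.trans hs.2⟩
  -- coordinates with speed at most one
  have hspeed : ∀ i, (∀ q, |X q i| ≤ 1) → |ξ a i| ≤ a → ∀ r ∈ Icc a b, |ξ r i| ≤ r := by
    intro i hi hia r hr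
    have h := (convex_Icc a b).norm_image_sub_le_of_norm_hasDerivWithin_le (C := 1)
      (f := fun r => ξ r i) (f' := fun r => X (ξ r) i)
      (fun r hr => coord_hasDeriv (hξ r hr) i) (fun r _ => by simpa using hi (ξ r)) ha' hr
    rw [Real.norm_eq_abs, Real.norm_eq_abs, abs_of_nonneg (by linarith [hr.1] : 0 ≤ r - a)] at h
    calc |ξ r i| = |(ξ r i - ξ a i) + ξ a i| := by ring_nf
      _ ≤ |ξ r i - ξ a i| + |ξ a i| := abs_add_le _ _
      _ ≤ r := by linarith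
  have hX0 : ∀ q, |X q (e 0)| ≤ 1 := by
    intro q
    rcases hX with rfl | rfl | ⟨i, hi0, hi2, hi4, rfl | rfl⟩
    · simp [fieldF]
    · simp [fieldB]
    · simp [fieldD, hi0.symm]
    · simp [fieldD, hi0.symm]
  have hX1 : ∀ q, |X q (e 1)| ≤ 1 := by
    intro q
    rcases hX with rfl | rfl | ⟨i, hi0, hi2, hi4, rfl | rfl⟩
    · simp [fieldF, he.eq_iff]
    · simp [fieldB, he.eq_iff]
    · simp only [fieldD]
      split_ifs <;> simp
    · simp only [fieldD]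
      split_ifs <;> simp
  have hX3 : ∀ q, |X q (e 3)| ≤ 1 := by
    intro q
    rcases hX with rfl | rfl | ⟨i, hi0, hi2, hi4, rfl | rfl⟩
    · simp [fieldF, he.eq_iff]
    · simp [fieldB, he.eq_iff]
    · simp only [fieldD]
      split_ifs <;> simp
    · simp only [fieldD]
      split_ifs <;> simp
  have c0 := hspeed _ hX0 h0
  have c1 := hspeed _ hX1 h1
  have c3 := hspeed _ hX3 h3
  refine ⟨c0 s hs, c1 s hs, c3 s hs, ?_⟩
  -- the barrier
  set C := 16 * μ ^ 6 / β with hC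
  have hC0 : 0 ≤ C := by positivity
  have hderiv : ∀ r ∈ Icc a b, HasDerivWithinAt (fun r => Phi e μ β (ξ r) + C * r)
      ((X (ξ r) (e 4) - (alph' μ β (ξ r (e 0)) * X (ξ r) (e 0) * ξ r (e 2) ^ 2 +
        alph μ β (ξ r (e 0)) * (2 * ξ r (e 2) * X (ξ r) (e 2)))) + C) (Icc a b) r := by
    intro r hr
    have d0 := coord_hasDeriv (hξ r hr) (e 0)
    have d2 := coord_hasDeriv (hξ r hr) (e 2)
    have d4 := coord_hasDeriv (hξ r hr) (e 4)
    have dα := (hasDerivAt_alph (μ := μ) hβ (ξ r (e 0))).comp_hasDerivWithinAt r d0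
    have d5 := (d4.sub (dα.mul (d2.pow 2))).add ((hasDerivWithinAt_id r (Icc a b)).const_mul C)
    refine HasDerivWithinAt.congr_deriv d5 ?_
    simp
  have hnonneg : ∀ r ∈ Icc a b, 0 ≤ (X (ξ r) (e 4) - (alph' μ β (ξ r (e 0)) * X (ξ r) (e 0) *
      ξ r (e 2) ^ 2 + alph μ β (ξ r (e 0)) * (2 * ξ r (e 2) * X (ξ r) (e 2)))) + C := by
    intro r hr
    have hr1 : r ≤ μ ^ 2 := hr.2.trans hb
    have hlog' : μ * Real.log (1 + β * (ξ r (e 0)) ^ 2) ≤ 2 := by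
      refine le_trans ?_ hlog
      apply mul_le_mul_of_nonneg_left _ hμ0.le
      apply Real.log_le_log (by positivity)
      have : (ξ r (e 0)) ^ 2 ≤ (μ ^ 2) ^ 2 := by
        rw [← sq_abs (ξ r (e 0))]
        exact pow_le_pow_left₀ (abs_nonneg _) ((c0 r hr).trans hr1) 2
      nlinarith
    have hv : |ξ r (e 1)| ≤ μ ^ 2 := (c1 r hr).trans hr1
    have hg : ξ r (e 3) ≤ μ ^ 2 := (le_abs_self _).trans ((c3 r hr).trans hr1)
    rcases hX with rfl | rfl | ⟨i, hi0, hi2, hi4, hi⟩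
    · have hk := key_F (w := ξ r (e 2)) hμ0 hμ hβ hlog' hv hg
      have e0 : fieldF e (ξ r) (e 0) = 1 := by simp [fieldF]
      have e2 : fieldF e (ξ r) (e 2) = ξ r (e 1) := by simp [fieldF, he.eq_iff]
      have e4 : fieldF e (ξ r) (e 4) = ξ r (e 0) ^ 2 * ξ r (e 1) ^ 2 -
          (1 / 4 + ξ r (e 3)) * ξ r (e 2) ^ 2 := by simp [fieldF, he.eq_iff]
      rw [e0, e2, e4]
      linarith
    · have hk := key_B (w := ξ r (e 2)) hμ0 hμ hβ hlog'
      have e0 : fieldB e (ξ r) (e 0) = -1 := by simp [fieldB]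
      have e2 : fieldB e (ξ r) (e 2) = 0 := by simp [fieldB, he.eq_iff]
      have e4 : fieldB e (ξ r) (e 4) = ξ r (e 2) ^ 2 := by simp [fieldB, he.eq_iff]
      rw [e0, e2, e4]
      linarith
    · have e0 : X (ξ r) (e 0) = 0 := by
        rcases hi with rfl | rfl <;> simp [fieldD, hi0.symm]
      have e2 : X (ξ r) (e 2) = 0 := by
        rcases hi with rfl | rfl <;> simp [fieldD, hi2.symm]
      have e4 : X (ξ r) (e 4) = 0 := by
        rcases hi with rfl | rfl <;> simp [fieldD, hi4.symm]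
      rw [e0, e2, e4]
      simpa using hC0
  have hmono : MonotoneOn (fun r => Phi e μ β (ξ r) + C * r) (Icc a b) := by
    apply monotoneOn_of_deriv_nonneg (convex_Icc a b)
    · intro r hr
      exact (hderiv r hr).continuousWithinAt
    · intro r hr
      have hr' := interior_subset hr
      rw [interior_Icc] at hr
      exact ((hderiv r hr').hasDerivAt (Icc_mem_nhds hr.1 hr.2)).differentiableAt.differentiableWithinAt
    · intro r hr
      have hr' := interior_subset hr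
      rw [interior_Icc] at hr
      rw [((hderiv r hr').hasDerivAt (Icc_mem_nhds hr.1 hr.2)).deriv]
      exact hnonneg r hr'
  have := hmono ha' hs hs.1
  simp only at this
  linarith

/-- The barrier bound for attainable points. -/
theorem barrier {k : ℕ} {f : Fin k → EuclideanSpace ℝ (Fin n) → EuclideanSpace ℝ (Fin n)}
    {e : Fin 5 → Fin n} (he : Function.Injective e) (hf : ∀ i, f i ∈ fieldSet e)
    {μ β : ℝ} (hμ0 : 0 < μ)
    (hμ : μ ≤ 1 / 10) (hβ : 0 < β) (hlog : μ * Real.log (1 + β * (μ ^ 2) ^ 2) ≤ 2)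
    {q : EuclideanSpace ℝ (Fin n)} (hq : q ∈ attainableSet f (μ ^ 2)) :
    -(16 * μ ^ 8 / β) ≤ Phi e μ β q := by
  obtain ⟨N, τ, i, ξ, hτ0, hτ, hτN, hξ, hξ0, hξm, hξN⟩ := hq
  have hτle : ∀ d j, j + d = N + 1 → τ j ≤ τ (N + 1) := by
    intro d
    induction d with
    | zero => intro j hj; rw [← hj, add_zero]
    | succ d ih =>
      intro j hj
      have h1 := hτ j (by omega)
      have h2 := ih (j + 1) (by omega)
      linarith
  have hinv : ∀ j ≤ N, Inv e μ β (τ j) (ξ j (τ j)) := by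
    intro j
    induction j with
    | zero =>
      intro _
      rw [hξ0, hτ0]
      simp [Inv, Phi, alph]
    | succ j ih =>
      intro hj
      have h1 := ih (by omega)
      rw [hξm j (by omega)]
      have h2 := hτle (N + 1 - (j + 1)) (j + 1) (by omega)
      exact inv_piece he hμ0 hμ hβ hlog (hf (i j)) (by linarith)
        (hξ j (by omega)) h1 ⟨(hτ j (by omega)).le, le_rfl⟩
  have hend := inv_piece he hμ0 hμ hβ hlog (hf (i N)) (by linarith)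
        (hξ N le_rfl) (hinv N le_rfl) ⟨(hτ N le_rfl).le, le_rfl⟩
  rw [hξN] at hend
  have h3 := hend.2.2.2
  have h4 : 16 * μ ^ 6 / β * τ (N + 1) ≤ 16 * μ ^ 6 / β * μ ^ 2 :=
    mul_le_mul_of_nonneg_left hτN.le (by positivity)
  have h5 : 16 * μ ^ 6 / β * μ ^ 2 = 16 * μ ^ 8 / β := by ring
  linarith

end Pool.Agent.Lib.MP_d7bfcb_an
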