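import Pool.Agent.Lib.MP_d7bfcb_an.Defs

open Set

namespace Pool.Agent.Lib.MP_d7bfcb_an

/-! ### A convenient reachability relation -/

section Reach

variable {E : Type*} [NormedAddCommGroup E] [NormedSpace ℝ E]

/-- Reachability through globally defined integral curves of the fields of the set `𝓕`. -/
inductive Reach (𝓕 : Set (E → E)) : ℝ → E → E → Prop
  | refl (p : E) : Reach 𝓕 0 p p
  | step {T : ℝ} {p q : E} (h : Reach 𝓕 T p q) (X : E → E) (hX : X ∈ 𝓕) (s : ℝ) (hs : 0 < s)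
      (ξ : ℝ → E) (h0 : ξ 0 = q) (hd : ∀ r, HasDerivAt ξ (X (ξ r)) r) : Reach 𝓕 (T + s) p (ξ s)

theorem Reach.nonneg {𝓕 : Set (E → E)} {T : ℝ} {p q : E} (h : Reach 𝓕 T p q) : 0 ≤ T := by
  induction h with
  | refl p => exact le_rfl
  | step h X hX s hs ξ h0 hd ih => linarith

theorem Reach.trans {𝓕 : Set (E → E)} {T T' : ℝ} {p q r : E} (h : Reach 𝓕 T p q)
    (h' : Reach 𝓕 T' q r) : Reach 𝓕 (T + T') p r := by
  induction h' with
  | refl q => simpa using h
  | step h' X hX s hs ξ h0 hd ih =>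
    rw [← add_assoc]
    exact Reach.step (ih h) X hX s hs ξ h0 hd

/-- Reachability in time at most `T`. -/
def RLE (𝓕 : Set (E → E)) (T : ℝ) (p q : E) : Prop := ∃ T' ≤ T, Reach 𝓕 T' p q

theorem RLE.refl (𝓕 : Set (E → E)) {T : ℝ} (hT : 0 ≤ T) (p : E) : RLE 𝓕 T p p :=
  ⟨0, hT, Reach.refl p⟩

theorem RLE.trans {𝓕 : Set (E → E)} {T T' : ℝ} {p q r : E} (h : RLE 𝓕 T p q)
    (h' : RLE 𝓕 T' q r) : RLE 𝓕 (T + T') p r := by
  obtain ⟨a, ha, h⟩ := h
  obtain ⟨b, hb, h'⟩ := h'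
  exact ⟨a + b, by linarith, h.trans h'⟩

theorem RLE.mono {𝓕 : Set (E → E)} {T T' : ℝ} {p q : E} (h : RLE 𝓕 T p q) (hT : T ≤ T') :
    RLE 𝓕 T' p q := by
  obtain ⟨a, ha, h⟩ := h
  exact ⟨a, ha.trans hT, h⟩

theorem RLE.of_curve {𝓕 : Set (E → E)} {X : E → E} (hX : X ∈ 𝓕) {s : ℝ} (hs : 0 ≤ s)
    (ξ : ℝ → E) (hd : ∀ r, HasDerivAt ξ (X (ξ r)) r) : RLE 𝓕 s (ξ 0) (ξ s) := by
  rcases hs.eq_or_lt with rfl | hs
  · exact RLE.refl 𝓕 le_rfl _
  · refine ⟨s, le_rfl, ?_⟩
    have := Reach.step (Reach.refl (𝓕 := 𝓕) (ξ 0)) X hX s hs ξ rfl hd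
    simpa using this

end Reach

/-- A `Reach` chain gives an explicit chain as in the definition of attainability. -/
theorem Reach.attainable_aux {n k : ℕ}
    (f : Fin k → EuclideanSpace ℝ (Fin n) → EuclideanSpace ℝ (Fin n))
    {T : ℝ} {p q : EuclideanSpace ℝ (Fin n)} (h : Reach (range f) T p q) (hp : p = 0) :
    (T = 0 ∧ q = 0) ∨ ∃ (N : ℕ) (τ : ℕ → ℝ) (i : ℕ → Fin k)
      (ξ : ℕ → ℝ → EuclideanSpace ℝ (Fin n)),
    τ 0 = 0 ∧ (∀ j ≤ N, τ j < τ (j + 1)) ∧ τ (N + 1) = T ∧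
    (∀ j ≤ N, ∀ s, HasDerivAt (ξ j) (f (i j) (ξ j s)) s) ∧
    ξ 0 (τ 0) = 0 ∧ (∀ j < N, ξ (j + 1) (τ (j + 1)) = ξ j (τ (j + 1))) ∧
    ξ N (τ (N + 1)) = q := by
  induction h with
  | refl p => exact Or.inl ⟨rfl, hp⟩
  | @step T p q h X hX s hs ζ h0 hd ih =>
    right
    obtain ⟨i₀, rfl⟩ := hX
    rcases ih hp with ⟨hT, hq⟩ | ⟨N, τ, i, ξ, hτ0, hτ, hτN, hξ, hξ0, hξm, hξN⟩
    · refine ⟨0, fun j => if j = 0 then 0 else s, fun _ => i₀, fun _ => ζ, by simp, ?_, ?_, ?_,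
        ?_, ?_, ?_⟩
      · intro j hj
        have : j = 0 := by omega
        subst this
        simpa using hs
      · simp [hT]
      · intro j _ r
        exact hd r
      · simp [h0, hq]
      · intro j hj
        omega
      · simp
    · refine ⟨N + 1, fun j => if j ≤ N + 1 then τ j else T + s,
        fun j => if j ≤ N then i j else i₀,
        fun j => if j ≤ N then ξ j else fun r => ζ (r - T), by simp [hτ0], ?_, ?_, ?_, ?_, ?_, ?_⟩
      · intro j hj
        by_cases hjN : j ≤ N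
        · have h1 : j ≤ N + 1 := by omega
          have h2 : j + 1 ≤ N + 1 := by omega
          simp only [h1, h2, if_true]
          exact hτ j hjN
        · have hj' : j = N + 1 := by omega
          subst hj'
          simp [hτN, hs]
      · simp
      · intro j hj r
        by_cases hjN : j ≤ N
        · simp only [hjN, if_true]
          exact hξ j hjN r
        · simp only [hjN, if_false]
          have := (hd (r - T)).comp_sub_const r T
          exact this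
      · simp [hξ0]
      · intro j hj
        have hjN : j ≤ N := by omega
        have h2 : j + 1 ≤ N + 1 := by omega
        by_cases hjN' : j + 1 ≤ N
        · simp only [hjN, hjN', h2, if_true]
          exact hξm j (by omega)
        · have hj' : j = N := by omega
          subst hj'
          simp [hτN, h0, ← hξN]
      · simp

theorem Reach.mem_attainableSet {n k : ℕ}
    {f : Fin k → EuclideanSpace ℝ (Fin n) → EuclideanSpace ℝ (Fin n)}
    {T t : ℝ} {q : EuclideanSpace ℝ (Fin n)} (h : Reach (range f) T 0 q) (hT : T < t)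
    (hT0 : 0 < T) : q ∈ attainableSet f t := by
  rcases h.attainable_aux f rfl with ⟨hT', -⟩ | ⟨N, τ, i, ξ, hτ0, hτ, hτN, hξ, hξ0, hξm, hξN⟩
  · exact absurd hT' hT0.ne'
  · exact ⟨N, τ, i, ξ, hτ0, hτ, hτN ▸ hT, fun j hj s _ => (hξ j hj s).hasDerivWithinAt,
      hξ0, hξm, hξN⟩

theorem RLE.mem_attainableSet {n k : ℕ}
    {f : Fin k → EuclideanSpace ℝ (Fin n) → EuclideanSpace ℝ (Fin n)}
    {T t : ℝ} {q : EuclideanSpace ℝ (Fin n)} (h : RLE (range f) T 0 q) (hT : T < t)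
    (hloop : ∀ s > 0, Reach (range f) s 0 0) : q ∈ attainableSet f t := by
  obtain ⟨T', hT', h⟩ := h
  have h1 : 0 < (t - T) / 2 := by linarith
  have h2 := (hloop _ h1).trans h
  exact h2.mem_attainableSet (by linarith) (by have := h.nonneg; linarith)

end Pool.Agent.Lib.MP_d7bfcb_an
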