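import Mathlib

open Set

namespace Pool.Agent.Lib.MP_d7bfcb_an

/-- `AttainableWith f t N x`: the point `x` is attainable from the origin in time less than `t`
with at most `N` switchings, for the family `f 0, …, f (k-1)` of vector fields: there are times
`0 = τ 0 < τ 1 < ⋯ < τ (N+1) < t`, indices `i 0, …, i N` and curves `ξ j` on `[τ j, τ (j+1)]`
solving `x' = f (i j) x`, with `ξ 0 (τ 0) = 0`, matching at the switching times, and ending
at `x`. -/
def AttainableWith {n k : ℕ}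
    (f : Fin k → EuclideanSpace ℝ (Fin n) → EuclideanSpace ℝ (Fin n))
    (t : ℝ) (N : ℕ) (x : EuclideanSpace ℝ (Fin n)) : Prop :=
  ∃ (τ : ℕ → ℝ) (i : ℕ → Fin k) (ξ : ℕ → ℝ → EuclideanSpace ℝ (Fin n)),
    τ 0 = 0 ∧ (∀ j ≤ N, τ j < τ (j + 1)) ∧ τ (N + 1) < t ∧
    (∀ j ≤ N, ∀ s ∈ Icc (τ j) (τ (j + 1)),
      HasDerivWithinAt (ξ j) (f (i j) (ξ j s)) (Icc (τ j) (τ (j + 1))) s) ∧
    ξ 0 (τ 0) = 0 ∧ (∀ j < N, ξ (j + 1) (τ (j + 1)) = ξ j (τ (j + 1))) ∧
    ξ N (τ (N + 1)) = x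

/-- The attainable set `𝒜_t`: the union over `N` of the points attainable from the origin in
time less than `t` with at most `N` switchings. -/
def attainableSet {n k : ℕ}
    (f : Fin k → EuclideanSpace ℝ (Fin n) → EuclideanSpace ℝ (Fin n))
    (t : ℝ) : Set (EuclideanSpace ℝ (Fin n)) :=
  {x | ∃ N, AttainableWith f t N x}

/-- Small time local controllability at the origin. -/
def STLC {n k : ℕ}
    (f : Fin k → EuclideanSpace ℝ (Fin n) → EuclideanSpace ℝ (Fin n)) : Prop :=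
  ∀ t > 0, (0 : EuclideanSpace ℝ (Fin n)) ∈ interior (attainableSet f t)

/-- The vector field `X` has polynomial components. -/
def IsPolynomialField {n : ℕ}
    (X : EuclideanSpace ℝ (Fin n) → EuclideanSpace ℝ (Fin n)) : Prop :=
  ∀ j : Fin n, ∃ P : MvPolynomial (Fin n) ℝ, ∀ x, X x j = MvPolynomial.eval (fun l => x l) P

end Pool.Agent.Lib.MP_d7bfcb_an
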