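import Pool.Agent.Lib.MP_d7bfcb_an.Basic

open Set

namespace Pool.Agent.Lib.MP_d7bfcb_an

variable {n : ℕ}

/-- The increment of the cost coordinate along the field `F`. -/
noncomputable def zinc (x v w g r : ℝ) : ℝ :=
  v ^ 2 * (x ^ 2 * r + x * r ^ 2 + r ^ 3 / 3) - (1 / 4 + g) * (w ^ 2 * r + w * v * r ^ 2 + v ^ 2 * r ^ 3 / 3)

/-- The field `F = ∂_x + v ∂_w + (x²v² - (1/4+g)w²) ∂_z` (coordinates `x,v,w,g,z` are the ones
with indices `e 0, e 1, e 2, e 3, e 4`). -/
noncomputable def fieldF (e : Fin 5 → Fin n) (q : EuclideanSpace ℝ (Fin n)) :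
    EuclideanSpace ℝ (Fin n) :=
  WithLp.toLp 2 fun i =>
    if i = e 0 then 1
    else if i = e 2 then q (e 1)
    else if i = e 4 then q (e 0) ^ 2 * q (e 1) ^ 2 - (1 / 4 + q (e 3)) * q (e 2) ^ 2
    else 0

/-- The field `B = -∂_x + w² ∂_z`. -/
noncomputable def fieldB (e : Fin 5 → Fin n) (q : EuclideanSpace ℝ (Fin n)) :
    EuclideanSpace ℝ (Fin n) :=
  WithLp.toLp 2 fun i => if i = e 0 then -1 else if i = e 4 then q (e 2) ^ 2 else 0

/-- The constant field `c ∂_i`. -/
noncomputable def fieldD (i : Fin n) (c : ℝ) (_ : EuclideanSpace ℝ (Fin n)) :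
    EuclideanSpace ℝ (Fin n) :=
  WithLp.toLp 2 fun j => if j = i then c else 0

/-- The family as a set. -/
def fieldSet (e : Fin 5 → Fin n) : Set (EuclideanSpace ℝ (Fin n) → EuclideanSpace ℝ (Fin n)) :=
  {X | X = fieldF e ∨ X = fieldB e ∨
    ∃ i, i ≠ e 0 ∧ i ≠ e 2 ∧ i ≠ e 4 ∧ (X = fieldD i 1 ∨ X = fieldD i (-1))}

theorem hasDerivAt_toLp' {φ : ℝ → Fin n → ℝ} {φ' : Fin n → ℝ} {r : ℝ}
    (h : ∀ i, HasDerivAt (fun r => φ r i) (φ' i) r) :
    HasDerivAt (fun r => (WithLp.toLp 2 (φ r) : EuclideanSpace ℝ (Fin n)))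
      (WithLp.toLp 2 φ' : EuclideanSpace ℝ (Fin n)) r := by
  have h1 : HasDerivAt φ φ' r := hasDerivAt_pi.2 h
  have h2 := PiLp.hasFDerivAt_toLp (𝕜 := ℝ) (E := fun _ : Fin n => ℝ) 2 (φ r)
  exact h2.comp_hasDerivAt r h1

/-- The point with special coordinates `x, v, w, g, z` and zero other coordinates. -/
noncomputable def S (e : Fin 5 → Fin n) (x v w g z : ℝ) : EuclideanSpace ℝ (Fin n) :=
  WithLp.toLp 2 fun i =>
    if i = e 0 then x else if i = e 1 then v else if i = e 2 then w
    else if i = e 3 then g else if i = e 4 then z else 0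

theorem S_zero (e : Fin 5 → Fin n) : S e 0 0 0 0 0 = 0 := by
  ext i
  simp [S]

section

variable {e : Fin 5 → Fin n} (he : Function.Injective e)

include he

theorem S_apply0 (x v w g z : ℝ) : S e x v w g z (e 0) = x := by
  have := he.eq_iff (a := 0) (b := 0)
  simp [S]

theorem S_apply1 (x v w g z : ℝ) : S e x v w g z (e 1) = v := by simp [S, he.eq_iff]

theorem S_apply2 (x v w g z : ℝ) : S e x v w g z (e 2) = w := by simp [S, he.eq_iff]

theorem S_apply3 (x v w g z : ℝ) : S e x v w g z (e 3) = g := by simp [S, he.eq_iff]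

theorem S_apply4 (x v w g z : ℝ) : S e x v w g z (e 4) = z := by simp [S, he.eq_iff]

theorem rle_F (x v w g z : ℝ) {s : ℝ} (hs : 0 ≤ s) :
    RLE (fieldSet e) s (S e x v w g z) (S e (x + s) v (w + s * v) g (z + zinc x v w g s)) := by
  have hd : ∀ r, HasDerivAt
      (fun r => S e (x + r) v (w + r * v) g (z + zinc x v w g r))
      (fieldF e (S e (x + r) v (w + r * v) g (z + zinc x v w g r))) r := by
    intro r
    apply hasDerivAt_toLp'
    intro i
    simp only [S_apply0 he, S_apply1 he, S_apply2 he, S_apply3 he]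
    by_cases h0 : i = e 0
    · simp only [h0, if_true]
      simpa using (hasDerivAt_id r).const_add x
    by_cases h1 : i = e 1
    · have h2 : ¬ (e 1 = e 2) := by simp [he.eq_iff]
      have h3 : ¬ (e 1 = e 4) := by simp [he.eq_iff]
      have h4 : ¬ (e 1 = e 0) := by simp [he.eq_iff]
      simp only [h1, h2, h3, h4, if_false, if_true]
      exact hasDerivAt_const r v
    by_cases h2 : i = e 2
    · have h3 : ¬ (e 2 = e 0) := by simp [he.eq_iff]
      have h4 : ¬ (e 2 = e 1) := by simp [he.eq_iff]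
      simp only [h2, h3, h4, if_false, if_true]
      simpa using ((hasDerivAt_id r).mul_const v).const_add w
    by_cases h3 : i = e 3
    · have h4 : ¬ (e 3 = e 0) := by simp [he.eq_iff]
      have h5 : ¬ (e 3 = e 1) := by simp [he.eq_iff]
      have h6 : ¬ (e 3 = e 2) := by simp [he.eq_iff]
      have h7 : ¬ (e 3 = e 4) := by simp [he.eq_iff]
      simp only [h3, h4, h5, h6, h7, if_false, if_true]
      exact hasDerivAt_const r g
    by_cases h4 : i = e 4
    · have h5 : ¬ (e 4 = e 0) := by simp [he.eq_iff]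
      have h6 : ¬ (e 4 = e 1) := by simp [he.eq_iff]
      have h7 : ¬ (e 4 = e 2) := by simp [he.eq_iff]
      have h8 : ¬ (e 4 = e 3) := by simp [he.eq_iff]
      simp only [h4, h5, h6, h7, h8, if_false, if_true]
      unfold zinc
      have hr := hasDerivAt_id r
      have e1 : HasDerivAt (fun r : ℝ => x ^ 2 * r + x * r ^ 2 + r ^ 3 / 3)
          (x ^ 2 + x * (2 * r) + 3 * r ^ 2 / 3) r := by
        have := ((hr.const_mul (x ^ 2)).add ((hr.pow 2).const_mul x)).add ((hr.pow 3).div_const 3)
        refine HasDerivAt.congr_deriv this ?_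
        simp
      have e2 : HasDerivAt (fun r : ℝ => w ^ 2 * r + w * v * r ^ 2 + v ^ 2 * r ^ 3 / 3)
          (w ^ 2 + w * v * (2 * r) + v ^ 2 * (3 * r ^ 2) / 3) r := by
        have := ((hr.const_mul (w ^ 2)).add ((hr.pow 2).const_mul (w * v))).add
          (((hr.pow 3).const_mul (v ^ 2)).div_const 3)
        refine HasDerivAt.congr_deriv this ?_
        simp
      have e3 := ((e1.const_mul (v ^ 2)).sub (e2.const_mul (1 / 4 + g))).const_add z
      refine e3.congr_deriv ?_
      ring
    · simp only [h0, h1, h2, h3, h4, if_false]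
      exact hasDerivAt_const r 0
  have := RLE.of_curve (𝓕 := fieldSet e) (X := fieldF e) (Or.inl rfl) hs _ hd
  simpa [zinc] using this

theorem rle_B (x v w g z : ℝ) {s : ℝ} (hs : 0 ≤ s) :
    RLE (fieldSet e) s (S e x v w g z) (S e (x - s) v w g (z + w ^ 2 * s)) := by
  have hd : ∀ r, HasDerivAt
      (fun r => S e (x - r) v w g (z + w ^ 2 * r))
      (fieldB e (S e (x - r) v w g (z + w ^ 2 * r))) r := by
    intro r
    apply hasDerivAt_toLp'
    intro i
    simp only [S_apply2 he]
    by_cases h0 : i = e 0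
    · simp only [h0, if_true]
      simpa using (hasDerivAt_id r).const_sub x
    by_cases h1 : i = e 1
    · have h3 : ¬ (e 1 = e 4) := by simp [he.eq_iff]
      have h4 : ¬ (e 1 = e 0) := by simp [he.eq_iff]
      simp only [h1, h3, h4, if_false, if_true]
      exact hasDerivAt_const r v
    by_cases h2 : i = e 2
    · have h3 : ¬ (e 2 = e 0) := by simp [he.eq_iff]
      have h4 : ¬ (e 2 = e 1) := by simp [he.eq_iff]
      have h5 : ¬ (e 2 = e 4) := by simp [he.eq_iff]
      simp only [h2, h3, h4, h5, if_false, if_true]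
      exact hasDerivAt_const r w
    by_cases h3 : i = e 3
    · have h4 : ¬ (e 3 = e 0) := by simp [he.eq_iff]
      have h5 : ¬ (e 3 = e 1) := by simp [he.eq_iff]
      have h6 : ¬ (e 3 = e 2) := by simp [he.eq_iff]
      have h7 : ¬ (e 3 = e 4) := by simp [he.eq_iff]
      simp only [h3, h4, h5, h6, h7, if_false, if_true]
      exact hasDerivAt_const r g
    by_cases h4 : i = e 4
    · have h5 : ¬ (e 4 = e 0) := by simp [he.eq_iff]
      have h6 : ¬ (e 4 = e 1) := by simp [he.eq_iff]
      have h7 : ¬ (e 4 = e 2) := by simp [he.eq_iff]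
      have h8 : ¬ (e 4 = e 3) := by simp [he.eq_iff]
      simp only [h4, h5, h6, h7, h8, if_false, if_true]
      simpa using ((hasDerivAt_id r).const_mul (w ^ 2)).const_add z
    · simp only [h0, h1, h2, h3, h4, if_false]
      exact hasDerivAt_const r 0
  have := RLE.of_curve (𝓕 := fieldSet e) (X := fieldB e) (Or.inr (Or.inl rfl)) hs _ hd
  simpa using this

end

/-- Changing one free coordinate. -/
theorem rle_update (e : Fin 5 → Fin n) {i : Fin n} (h0 : i ≠ e 0) (h2 : i ≠ e 2) (h4 : i ≠ e 4)
    (q : EuclideanSpace ℝ (Fin n)) (a : ℝ) :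
    RLE (fieldSet e) |a - q i| q (WithLp.toLp 2 (Function.update q i a)) := by
  have key : ∀ c : ℝ, (c = 1 ∨ c = -1) → ∀ s : ℝ, 0 ≤ s → c * s = a - q i →
      RLE (fieldSet e) s q (WithLp.toLp 2 (Function.update q i a)) := by
    intro c hc s hs hcs
    have hd : ∀ r, HasDerivAt (fun r => (WithLp.toLp 2 (Function.update q i (q i + c * r)) :
        EuclideanSpace ℝ (Fin n)))
        (fieldD i c (WithLp.toLp 2 (Function.update q i (q i + c * r)))) r := by
      intro r
      apply hasDerivAt_toLp'
      intro j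
      by_cases hj : j = i
      · subst hj
        simp only [Function.update_self, if_true]
        simpa using ((hasDerivAt_id r).const_mul c).const_add (q j)
      · simp only [Function.update_of_ne hj, hj, if_false]
        exact hasDerivAt_const r _
    have hX : fieldD i c ∈ fieldSet e := by
      refine Or.inr (Or.inr ⟨i, h0, h2, h4, ?_⟩)
      rcases hc with rfl | rfl
      · exact Or.inl rfl
      · exact Or.inr rfl
    have := RLE.of_curve hX hs _ hd
    rw [hcs] at this
    simpa using this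
  rcases le_total 0 (a - q i) with h | h
  · rw [abs_of_nonneg h]
    exact key 1 (Or.inl rfl) _ h (by ring)
  · rw [abs_of_nonpos h]
    exact key (-1) (Or.inr rfl) _ (by linarith) (by ring)

section

variable {e : Fin 5 → Fin n} (he : Function.Injective e)

include he

theorem rle_V (x v w g z v' : ℝ) :
    RLE (fieldSet e) |v' - v| (S e x v w g z) (S e x v' w g z) := by
  have h := rle_update e (i := e 1) (by simp [he.eq_iff]) (by simp [he.eq_iff])
    (by simp [he.eq_iff]) (S e x v w g z) v'
  rw [S_apply1 he] at h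
  have h2 : (WithLp.toLp 2 (Function.update (S e x v w g z) (e 1) v') :
      EuclideanSpace ℝ (Fin n)) = S e x v' w g z := by
    ext j
    by_cases hj : j = e 1
    · subst hj
      simp [S, he.eq_iff]
    · simp [S, hj]
  rwa [h2] at h

theorem rle_G (x v w g z g' : ℝ) :
    RLE (fieldSet e) |g' - g| (S e x v w g z) (S e x v w g' z) := by
  have h := rle_update e (i := e 3) (by simp [he.eq_iff]) (by simp [he.eq_iff])
    (by simp [he.eq_iff]) (S e x v w g z) g'
  rw [S_apply3 he] at h
  have h2 : (WithLp.toLp 2 (Function.update (S e x v w g z) (e 3) g') :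
      EuclideanSpace ℝ (Fin n)) = S e x v w g' z := by
    ext j
    by_cases hj : j = e 3
    · subst hj
      simp [S, he.eq_iff]
    · simp [S, hj]
  rwa [h2] at h

end

/-- Changing all free coordinates. -/
theorem rle_free (e : Fin 5 → Fin n) (p q : EuclideanSpace ℝ (Fin n))
    (A : Finset (Fin n)) (hA : ∀ i ∈ A, i ≠ e 0 ∧ i ≠ e 2 ∧ i ≠ e 4) :
    RLE (fieldSet e) (∑ i ∈ A, |q i - p i|) p
      (WithLp.toLp 2 (fun i => if i ∈ A then q i else p i)) := by
  classical
  induction A using Finset.induction_on with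
  | empty => simpa using RLE.refl (fieldSet e) le_rfl p
  | insert a A ha ih =>
    have h1 := ih (fun i hi => hA i (Finset.mem_insert_of_mem hi))
    obtain ⟨h0, h2, h4⟩ := hA a (Finset.mem_insert_self a A)
    have h3 := rle_update e h0 h2 h4
      (WithLp.toLp 2 (fun i => if i ∈ A then q i else p i)) (q a)
    have h5 := h1.trans h3
    rw [Finset.sum_insert ha, add_comm |q a - p a|]
    have h6 : (WithLp.toLp 2 (Function.update (WithLp.toLp 2 (fun i => if i ∈ A then q i else p i) :
        EuclideanSpace ℝ (Fin n)) a (q a)) : EuclideanSpace ℝ (Fin n)) =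
        WithLp.toLp 2 (fun i => if i ∈ insert a A then q i else p i) := by
      ext j
      by_cases hj : j = a
      · subst hj
        simp
      · simp [hj]
    rw [h6] at h5
    simpa [ha] using h5

end Pool.Agent.Lib.MP_d7bfcb_an
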