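import Pool.Agent.Lib.MP_d7bfcb_an.Fields

open Set

namespace Pool.Agent.Lib.MP_d7bfcb_an

variable {n : ℕ} {e : Fin 5 → Fin n} (he : Function.Injective e)

include he

/-- One segment of the piecewise linear profile: set the velocity to `v'`, then follow `F`. -/
theorem rle_seg (x v w g z v' : ℝ) {s : ℝ} (hs : 0 ≤ s) :
    RLE (fieldSet e) (|v' - v| + s) (S e x v w g z)
      (S e (x + s) v' (w + s * v') g (z + zinc x v' w g s)) :=
  (rle_V he x v w g z v').trans (rle_F he x v' w g z hs)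

/-- The positive loop. -/
theorem rle_pos (z : ℝ) {a s : ℝ} (ha : 0 ≤ a) (hs : 0 ≤ s) :
    RLE (fieldSet e) (4 * a + 4 * s) (S e 0 0 0 0 z) (S e 0 0 0 0 (z + 5 / 2 * a ^ 2 * s ^ 3)) := by
  have h1 := rle_seg he 0 0 0 0 z a hs
  have h2 := rle_seg he (0 + s) a (0 + s * a) 0 (z + zinc 0 a 0 0 s) (-a) hs
  have h3 := rle_V he (0 + s + s) (-a) (0 + s * a + s * (-a)) 0
    (z + zinc 0 a 0 0 s + zinc (0 + s) (-a) (0 + s * a) 0 s) 0
  have h4 := rle_B he (0 + s + s) 0 (0 + s * a + s * (-a)) 0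
    (z + zinc 0 a 0 0 s + zinc (0 + s) (-a) (0 + s * a) 0 s) (s := 2 * s) (by linarith)
  have h5 := ((h1.trans h2).trans h3).trans h4
  have e1 : 0 + s + s - 2 * s = 0 := by ring
  have e2 : 0 + s * a + s * (-a) = 0 := by ring
  have e3 : z + zinc 0 a 0 0 s + zinc (0 + s) (-a) (0 + s * a) 0 s +
      (0 + s * a + s * (-a)) ^ 2 * (2 * s) = z + 5 / 2 * a ^ 2 * s ^ 3 := by
    unfold zinc
    ring
  rw [e3, e2, e1] at h5
  refine h5.mono ?_
  have a1 : |a - 0| = a := by rw [sub_zero, abs_of_nonneg ha]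
  have a2 : |(-a) - a| = 2 * a := by
    rw [show (-a) - a = -(2 * a) by ring, abs_neg, abs_of_nonneg (by linarith)]
  have a3 : |(0 : ℝ) - (-a)| = a := by
    rw [show (0 : ℝ) - (-a) = a by ring, abs_of_nonneg ha]
  rw [a1, a2, a3]
  linarith

/-- The energy of the first segment. -/
noncomputable def J0 (r g : ℝ) : ℝ :=
  ((r ^ 4 + r ^ 2 + 1) / (3 * (r ^ 2 - 1)) - (1 / 4 + g) * (r ^ 2 - 1) / 3) / r ^ 2

/-- The energy of the last segment. -/
noncomputable def Jl (r g : ℝ) : ℝ :=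
  (r ^ 4 + r ^ 2 + 1) / (3 * (r ^ 2 - 1)) - (1 / 4 + g) * (r ^ 2 - 1) / 3

/-- The energy of a middle segment. -/
noncomputable def Jm (r g : ℝ) : ℝ :=
  (r ^ 2 + r + 1) * (r - 1) / (3 * r ^ 2 * (r + 1)) * (3 / 4 * (r - 1) ^ 2 - g * (r + 1) ^ 2)

omit he in
theorem Jm_neg {δ : ℝ} (hδ : 0 < δ) : Jm (1 + δ) (δ ^ 2) < 0 := by
  unfold Jm
  apply mul_neg_of_pos_of_neg
  · have : 0 < 1 + δ - 1 := by linarith
    positivity
  · nlinarith [pow_pos hδ 2, pow_pos hδ 3, pow_pos hδ 4]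

/-- First segment. -/
theorem rle_first {r lam c g : ℝ} (hr : 1 < r) (hlam : 0 < lam) (hc : 0 ≤ c) (z : ℝ) :
    ∃ v, |v| ≤ c / (lam * (r ^ 2 - 1)) ∧
    RLE (fieldSet e) (c / (lam * (r ^ 2 - 1)) + lam * (r ^ 2 - 1)) (S e lam 0 0 g z)
      (S e (lam * r ^ (2 * 1)) v (c / r ^ 1) g (z + lam * c ^ 2 * J0 r g)) := by
  have hr1 : 0 < r ^ 2 - 1 := by nlinarith
  have hr0 : 0 < r := by linarith
  refine ⟨c / (r * (lam * (r ^ 2 - 1))), ?_, ?_⟩
  · rw [abs_of_nonneg (by positivity)]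
    apply div_le_div_of_nonneg_left hc (by positivity)
    have : 0 < lam * (r ^ 2 - 1) := by positivity
    nlinarith
  · have h := rle_seg he lam 0 0 g z (c / (r * (lam * (r ^ 2 - 1)))) (s := lam * (r ^ 2 - 1))
      (by positivity)
    have e1 : lam + lam * (r ^ 2 - 1) = lam * r ^ (2 * 1) := by ring
    have e2 : 0 + lam * (r ^ 2 - 1) * (c / (r * (lam * (r ^ 2 - 1)))) = c / r ^ 1 := by
      field_simp
      ring
    have e3 : z + zinc lam (c / (r * (lam * (r ^ 2 - 1)))) 0 g (lam * (r ^ 2 - 1)) =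
        z + lam * c ^ 2 * J0 r g := by
      unfold zinc J0
      field_simp
      ring
    rw [e1, e2, e3] at h
    refine h.mono ?_
    gcongr
    rw [sub_zero, abs_of_nonneg (by positivity)]
    apply div_le_div_of_nonneg_left hc (by positivity)
    have : 0 < lam * (r ^ 2 - 1) := by positivity
    nlinarith

/-- Middle segments. -/
theorem rle_middle {r lam c g : ℝ} (hr : 1 < r) (hr2 : r ≤ 2) (hlam : 0 < lam) (hc : 0 ≤ c) (z : ℝ)
    (m : ℕ) :
    ∃ v, |v| ≤ c / (lam * (r ^ 2 - 1)) ∧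
    RLE (fieldSet e) ((2 * m + 1) * (c / (lam * (r ^ 2 - 1))) + lam * (r ^ (2 * (m + 1)) - 1))
      (S e lam 0 0 g z)
      (S e (lam * r ^ (2 * (m + 1))) v (c / r ^ (m + 1)) g
        (z + lam * c ^ 2 * (J0 r g + m * Jm r g))) := by
  have hr1 : 0 < r ^ 2 - 1 := by nlinarith
  have hr0 : 0 < r := by linarith
  induction m with
  | zero =>
    obtain ⟨v, hv, h⟩ := rle_first he (g := g) hr hlam hc z
    refine ⟨v, hv, ?_⟩
    simpa using h
  | succ m ih =>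
    obtain ⟨v, hv, h⟩ := ih
    have hpow : 1 ≤ r ^ (3 * (m + 1) + 1) := one_le_pow₀ hr.le
    have hv' : |(-(c / (lam * (r ^ (3 * (m + 1) + 1) * (r + 1)))))| ≤ c / (lam * (r ^ 2 - 1)) := by
      rw [abs_neg, abs_of_nonneg (by positivity)]
      apply div_le_div_of_nonneg_left hc (by positivity)
      apply mul_le_mul_of_nonneg_left _ hlam.le
      have : r ^ 2 - 1 = (r - 1) * (r + 1) := by ring
      rw [this]
      apply mul_le_mul_of_nonneg_right _ (by linarith)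
      linarith
    refine ⟨-(c / (lam * (r ^ (3 * (m + 1) + 1) * (r + 1)))), hv', ?_⟩
    have hs : 0 ≤ lam * r ^ (2 * (m + 1)) * (r ^ 2 - 1) := by positivity
    have h2 := h.trans (rle_seg he (lam * r ^ (2 * (m + 1))) v (c / r ^ (m + 1)) g
        (z + lam * c ^ 2 * (J0 r g + m * Jm r g))
        (-(c / (lam * (r ^ (3 * (m + 1) + 1) * (r + 1))))) hs)
    have e1 : lam * r ^ (2 * (m + 1)) + lam * r ^ (2 * (m + 1)) * (r ^ 2 - 1) =
        lam * r ^ (2 * (m + 1 + 1)) := by ring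
    have e2 : c / r ^ (m + 1) + lam * r ^ (2 * (m + 1)) * (r ^ 2 - 1) *
        (-(c / (lam * (r ^ (3 * (m + 1) + 1) * (r + 1))))) = c / r ^ (m + 1 + 1) := by
      have e4 : r ^ (3 * (m + 1) + 1) = (r ^ (m + 1)) ^ 3 * r := by ring
      have e5 : r ^ (2 * (m + 1)) = (r ^ (m + 1)) ^ 2 := by ring
      have e6 : r ^ (m + 1 + 1) = r ^ (m + 1) * r := by ring
      rw [e4, e5, e6]
      have hR : 0 < r ^ (m + 1) := by positivity
      set R := r ^ (m + 1) with hRdef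
      have hr3 : 0 < r + 1 := by linarith
      field_simp
      ring
    have e3 : z + lam * c ^ 2 * (J0 r g + m * Jm r g) +
        zinc (lam * r ^ (2 * (m + 1))) (-(c / (lam * (r ^ (3 * (m + 1) + 1) * (r + 1)))))
          (c / r ^ (m + 1)) g (lam * r ^ (2 * (m + 1)) * (r ^ 2 - 1)) =
        z + lam * c ^ 2 * (J0 r g + (m + 1 : ℕ) * Jm r g) := by
      have e4 : r ^ (3 * (m + 1) + 1) = (r ^ (m + 1)) ^ 3 * r := by ring
      have e5 : r ^ (2 * (m + 1)) = (r ^ (m + 1)) ^ 2 := by ring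
      rw [e4, e5]
      have hR : 0 < r ^ (m + 1) := by positivity
      set R := r ^ (m + 1) with hRdef
      have hr3 : 0 < r + 1 := by linarith
      have key : zinc (lam * R ^ 2) (-(c / (lam * (R ^ 3 * r * (r + 1))))) (c / R) g
          (lam * R ^ 2 * (r ^ 2 - 1)) = lam * c ^ 2 * Jm r g := by
        unfold zinc Jm
        field_simp
        ring
      rw [key]
      push_cast
      ring
    rw [e1, e2, e3] at h2
    refine h2.mono ?_
    have h3 : |(-(c / (lam * (r ^ (3 * (m + 1) + 1) * (r + 1))))) - v| ≤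
        2 * (c / (lam * (r ^ 2 - 1))) := by
      calc |(-(c / (lam * (r ^ (3 * (m + 1) + 1) * (r + 1))))) - v|
          ≤ |(-(c / (lam * (r ^ (3 * (m + 1) + 1) * (r + 1)))))| + |v| := abs_sub _ _
        _ ≤ 2 * (c / (lam * (r ^ 2 - 1))) := by linarith
    have e7 : lam * (r ^ (2 * (m + 1)) - 1) + lam * r ^ (2 * (m + 1)) * (r ^ 2 - 1) =
        lam * (r ^ (2 * (m + 1 + 1)) - 1) := by ring
    push_cast
    linarith

/-- The whole excursion: first, middle and last segments. -/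
theorem rle_excursion {r lam c g : ℝ} (hr : 1 < r) (hr2 : r ≤ 2) (hlam : 0 < lam) (hc : 0 ≤ c)
    (z : ℝ) (m : ℕ) :
    RLE (fieldSet e) ((2 * m + 4) * (c / (lam * (r ^ 2 - 1))) + lam * (r ^ (2 * (m + 2)) - 1))
      (S e lam 0 0 g z)
      (S e (lam * r ^ (2 * (m + 2))) 0 0 g
        (z + lam * c ^ 2 * (J0 r g + m * Jm r g + Jl r g))) := by
  have hr1 : 0 < r ^ 2 - 1 := by nlinarith
  have hr0 : 0 < r := by linarith
  obtain ⟨v, hv, h⟩ := rle_middle he (g := g) hr hr2 hlam hc z m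
  have hpow : 1 ≤ r ^ (3 * (m + 1)) := one_le_pow₀ hr.le
  have hv' : |(-(c / (lam * (r ^ (3 * (m + 1)) * (r ^ 2 - 1)))))| ≤ c / (lam * (r ^ 2 - 1)) := by
    rw [abs_neg, abs_of_nonneg (by positivity)]
    apply div_le_div_of_nonneg_left hc (by positivity)
    apply mul_le_mul_of_nonneg_left _ hlam.le
    nlinarith
  have hs : 0 ≤ lam * r ^ (2 * (m + 1)) * (r ^ 2 - 1) := by positivity
  have h2 := (h.trans (rle_seg he (lam * r ^ (2 * (m + 1))) v (c / r ^ (m + 1)) g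
      (z + lam * c ^ 2 * (J0 r g + m * Jm r g))
      (-(c / (lam * (r ^ (3 * (m + 1)) * (r ^ 2 - 1))))) hs)).trans (rle_V he _ _ _ _ _ 0)
  have e1 : lam * r ^ (2 * (m + 1)) + lam * r ^ (2 * (m + 1)) * (r ^ 2 - 1) =
      lam * r ^ (2 * (m + 2)) := by ring
  have e2 : c / r ^ (m + 1) + lam * r ^ (2 * (m + 1)) * (r ^ 2 - 1) *
      (-(c / (lam * (r ^ (3 * (m + 1)) * (r ^ 2 - 1))))) = 0 := by
    have e4 : r ^ (3 * (m + 1)) = (r ^ (m + 1)) ^ 3 := by ring
    have e5 : r ^ (2 * (m + 1)) = (r ^ (m + 1)) ^ 2 := by ring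
    rw [e4, e5]
    have hR : 0 < r ^ (m + 1) := by positivity
    set R := r ^ (m + 1) with hRdef
    field_simp
    ring
  have e3 : z + lam * c ^ 2 * (J0 r g + m * Jm r g) +
      zinc (lam * r ^ (2 * (m + 1))) (-(c / (lam * (r ^ (3 * (m + 1)) * (r ^ 2 - 1)))))
        (c / r ^ (m + 1)) g (lam * r ^ (2 * (m + 1)) * (r ^ 2 - 1)) =
      z + lam * c ^ 2 * (J0 r g + m * Jm r g + Jl r g) := by
    have e4 : r ^ (3 * (m + 1)) = (r ^ (m + 1)) ^ 3 := by ring
    have e5 : r ^ (2 * (m + 1)) = (r ^ (m + 1)) ^ 2 := by ring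
    rw [e4, e5]
    have hR : 0 < r ^ (m + 1) := by positivity
    set R := r ^ (m + 1) with hRdef
    have key : zinc (lam * R ^ 2) (-(c / (lam * (R ^ 3 * (r ^ 2 - 1))))) (c / R) g
        (lam * R ^ 2 * (r ^ 2 - 1)) = lam * c ^ 2 * Jl r g := by
      unfold zinc Jl
      field_simp
      ring
    rw [key]
    ring
  rw [e1, e2, e3] at h2
  refine h2.mono ?_
  have h3 : |(-(c / (lam * (r ^ (3 * (m + 1)) * (r ^ 2 - 1))))) - v| ≤
      2 * (c / (lam * (r ^ 2 - 1))) := by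
    calc |(-(c / (lam * (r ^ (3 * (m + 1)) * (r ^ 2 - 1))))) - v|
        ≤ |(-(c / (lam * (r ^ (3 * (m + 1)) * (r ^ 2 - 1)))))| + |v| := abs_sub _ _
      _ ≤ 2 * (c / (lam * (r ^ 2 - 1))) := by linarith
  have h4 : |0 - (-(c / (lam * (r ^ (3 * (m + 1)) * (r ^ 2 - 1)))))| ≤
      c / (lam * (r ^ 2 - 1)) := by
    rw [zero_sub, abs_neg]
    exact hv'
  have e7 : lam * (r ^ (2 * (m + 1)) - 1) + lam * r ^ (2 * (m + 1)) * (r ^ 2 - 1) =
      lam * (r ^ (2 * (m + 2)) - 1) := by ring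
  linarith

/-- The closed loop through the excursion. -/
theorem rle_loop {r lam c g : ℝ} (hr : 1 < r) (hr2 : r ≤ 2) (hlam : 0 < lam) (hc : 0 ≤ c)
    (hg : 0 ≤ g) (z : ℝ) (m : ℕ) :
    RLE (fieldSet e) ((2 * m + 4) * (c / (lam * (r ^ 2 - 1))) + 2 * (lam * r ^ (2 * (m + 2)))
        + 2 * g)
      (S e 0 0 0 0 z)
      (S e 0 0 0 0 (z + lam * c ^ 2 * (J0 r g + m * Jm r g + Jl r g))) := by
  have hr0 : 0 < r := by linarith
  have h1 := rle_G he 0 0 0 0 z g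
  have h2 := rle_F he 0 0 0 g z (s := lam) hlam.le
  have e1 : z + zinc 0 0 0 g lam = z := by unfold zinc; ring
  rw [e1, zero_add, mul_zero, add_zero] at h2
  have h3 := rle_excursion he (g := g) hr hr2 hlam hc z m
  have h4 := rle_B he (lam * r ^ (2 * (m + 2))) 0 0 g
    (z + lam * c ^ 2 * (J0 r g + m * Jm r g + Jl r g)) (s := lam * r ^ (2 * (m + 2)))
    (by positivity)
  have h5 := rle_G he 0 0 0 g (z + lam * c ^ 2 * (J0 r g + m * Jm r g + Jl r g)) 0
  rw [sub_self, zero_pow two_ne_zero, zero_mul, add_zero] at h4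
  refine ((((h1.trans h2).trans h3).trans h4).trans h5).mono ?_
  rw [sub_zero, zero_sub, abs_neg, abs_of_nonneg hg]
  linarith

/-- Small loops in both directions of the cost coordinate. -/
theorem exists_loops {t : ℝ} (ht : 0 < t) :
    ∃ η > 0, ∀ ζ, |ζ| ≤ η → RLE (fieldSet e) (t / 4) (S e 0 0 0 0 0) (S e 0 0 0 0 ζ) := by
  -- parameters of the negative loop
  obtain ⟨δ, hδ0, hδ1, hδt⟩ : ∃ δ : ℝ, 0 < δ ∧ δ ≤ 1 ∧ δ ≤ t / 32 :=
    ⟨min 1 (t / 32), by positivity, min_le_left _ _, min_le_right _ _⟩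
  have hg : δ ^ 2 ≤ t / 32 := by nlinarith
  have hr : 1 < 1 + δ := by linarith
  have hr2 : 1 + δ ≤ 2 := by linarith
  have hr1 : 0 < (1 + δ) ^ 2 - 1 := by nlinarith
  obtain ⟨m, hm⟩ : ∃ m : ℕ, J0 (1 + δ) (δ ^ 2) + m * Jm (1 + δ) (δ ^ 2) + Jl (1 + δ) (δ ^ 2) < 0 := by
    have hJ := Jm_neg hδ0
    obtain ⟨m, hm⟩ := exists_nat_gt ((J0 (1 + δ) (δ ^ 2) + Jl (1 + δ) (δ ^ 2)) /
      (-Jm (1 + δ) (δ ^ 2)))
    refine ⟨m, ?_⟩
    rw [div_lt_iff₀ (by linarith)] at hm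
    linarith
  set J := J0 (1 + δ) (δ ^ 2) + m * Jm (1 + δ) (δ ^ 2) + Jl (1 + δ) (δ ^ 2) with hJdef
  obtain ⟨lam, hlam, hlamt⟩ : ∃ lam : ℝ, 0 < lam ∧ lam * (1 + δ) ^ (2 * (m + 2)) = t / 32 :=
    ⟨t / 32 / (1 + δ) ^ (2 * (m + 2)), by positivity, by field_simp⟩
  obtain ⟨c₀, hc₀, hc₀t⟩ : ∃ c₀ : ℝ, 0 < c₀ ∧
      (2 * m + 4) * (c₀ / (lam * ((1 + δ) ^ 2 - 1))) = t / 32 :=
    ⟨t / 32 / (2 * m + 4) * (lam * ((1 + δ) ^ 2 - 1)), by positivity, by field_simp⟩
  have hneg : ∀ ζ, 0 ≤ ζ → ζ ≤ lam * c₀ ^ 2 * (-J) →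
      RLE (fieldSet e) (t / 4) (S e 0 0 0 0 0) (S e 0 0 0 0 (-ζ)) := by
    intro ζ h0 h1
    have hJ' : 0 < -J := by linarith
    have hp : 0 < lam * (-J) := by positivity
    have hc : √(ζ / (lam * (-J))) ≤ c₀ := by
      rw [Real.sqrt_le_left hc₀.le, div_le_iff₀ hp]
      linarith
    have h2 := rle_loop he hr hr2 hlam (Real.sqrt_nonneg (ζ / (lam * (-J)))) (sq_nonneg δ) 0 m
    rw [Real.sq_sqrt (by positivity), ← hJdef] at h2
    have e1 : 0 + lam * (ζ / (lam * (-J))) * J = -ζ := by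
      have : J ≠ 0 := by linarith
      field_simp
      ring
    rw [e1] at h2
    refine h2.mono ?_
    have h3 : (2 * m + 4) * (√(ζ / (lam * (-J))) / (lam * ((1 + δ) ^ 2 - 1))) ≤ t / 32 := by
      rw [← hc₀t]
      gcongr
    rw [hlamt]
    linarith
  have hpos : ∀ ζ, 0 ≤ ζ → ζ ≤ 5 / 2 * (t / 32) ^ 2 * (t / 32) ^ 3 →
      RLE (fieldSet e) (t / 4) (S e 0 0 0 0 0) (S e 0 0 0 0 ζ) := by
    intro ζ h0 h1
    have hp : 0 < 5 / 2 * (t / 32) ^ 3 := by positivity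
    have ha : √(ζ / (5 / 2 * (t / 32) ^ 3)) ≤ t / 32 := by
      rw [Real.sqrt_le_left (by positivity), div_le_iff₀ hp]
      linarith
    have h2 := rle_pos he 0 (Real.sqrt_nonneg (ζ / (5 / 2 * (t / 32) ^ 3))) (s := t / 32)
      (by positivity)
    rw [Real.sq_sqrt (by positivity)] at h2
    have e1 : 0 + 5 / 2 * (ζ / (5 / 2 * (t / 32) ^ 3)) * (t / 32) ^ 3 = ζ := by
      field_simp
      ring
    rw [e1] at h2
    refine h2.mono ?_
    linarith
  have hη1 : 0 < lam * c₀ ^ 2 * (-J) := by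
    have : 0 < -J := by linarith
    positivity
  refine ⟨min (lam * c₀ ^ 2 * (-J)) (5 / 2 * (t / 32) ^ 2 * (t / 32) ^ 3),
    lt_min hη1 (by positivity), ?_⟩
  intro ζ hζ
  have h1 := hζ.trans (min_le_left _ _)
  have h2 := hζ.trans (min_le_right _ _)
  rcases le_total 0 ζ with h | h
  · exact hpos ζ h (by rwa [abs_of_nonneg h] at h2)
  · have := hneg (-ζ) (by linarith) (by rwa [abs_of_nonpos h] at h1)
    simpa using this

/-- Every point near the origin is reached in time at most `t / 2`. -/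
theorem exists_nbhd {t : ℝ} (ht : 0 < t) :
    ∃ ρ > 0, ∀ q : EuclideanSpace ℝ (Fin n), (∀ i, |q i| < ρ) →
      RLE (fieldSet e) (t / 2) 0 q := by
  obtain ⟨η, hη, hloop⟩ := exists_loops he ht
  set s : ℝ := t / 32 with hs
  have hs0 : 0 < s := by positivity
  obtain ⟨ρ, hρ0, hρ1, hρη, hρs, hρw, hρn⟩ : ∃ ρ : ℝ, 0 < ρ ∧ ρ ≤ 1 ∧ ρ * (1 + 9 / 4 * s) ≤ η ∧
      ρ ≤ s ∧ ρ / s ≤ s ∧ n * ρ ≤ s := by
    refine ⟨min (min 1 (η / (1 + 9 / 4 * s))) (min (min s (s * s)) (s / (n + 1))),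
      by positivity, ?_, ?_, ?_, ?_, ?_⟩
    · exact (min_le_left _ _).trans (min_le_left _ _)
    · have := (min_le_left (min 1 (η / (1 + 9 / 4 * s)))
        (min (min s (s * s)) (s / (n + 1)))).trans (min_le_right _ _)
      rwa [le_div_iff₀ (by positivity)] at this
    · exact (min_le_right _ _).trans ((min_le_left _ _).trans (min_le_left _ _))
    · rw [div_le_iff₀ hs0]
      exact (min_le_right _ _).trans ((min_le_left _ _).trans (min_le_right _ _))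
    · have h1 : min (min 1 (η / (1 + 9 / 4 * s))) (min (min s (s * s)) (s / (n + 1))) ≤
        s / (n + 1) := (min_le_right _ _).trans (min_le_right _ _)
      rw [le_div_iff₀ (by positivity)] at h1
      have h2 : 0 < min (min 1 (η / (1 + 9 / 4 * s))) (min (min s (s * s)) (s / (n + 1))) := by
        positivity
      linarith
  refine ⟨ρ, hρ0, ?_⟩
  intro q hq
  have hx := hq (e 0)
  have hw := hq (e 2)
  have hz := hq (e 4)
  set x := q (e 0) with hxdef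
  set w := q (e 2) with hwdef
  set z := q (e 4) with hzdef
  have hx1 := abs_lt.1 hx
  have hw2 : w ^ 2 ≤ ρ := by
    have h1 : w ^ 2 = |w| ^ 2 := (sq_abs w).symm
    rw [h1]
    nlinarith [abs_nonneg w]
  -- the loop
  have h1 := hloop (z - w ^ 2 * (5 / 4 * s - x)) (by
    have h2 : |w ^ 2 * (5 / 4 * s - x)| ≤ ρ * (9 / 4 * s) := by
      rw [abs_mul, abs_of_nonneg (sq_nonneg w)]
      apply mul_le_mul hw2 _ (abs_nonneg _) hρ0.le
      rw [abs_le]
      constructor <;> linarith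
    calc |z - w ^ 2 * (5 / 4 * s - x)| ≤ |z| + |w ^ 2 * (5 / 4 * s - x)| := abs_sub _ _
      _ ≤ ρ + ρ * (9 / 4 * s) := by linarith
      _ ≤ η := by linarith)
  rw [S_zero] at h1
  have h2 := rle_seg he 0 0 0 0 (z - w ^ 2 * (5 / 4 * s - x)) (w / s) hs0.le
  have h3 := rle_B he (0 + s) (w / s) (0 + s * (w / s)) 0
    (z - w ^ 2 * (5 / 4 * s - x) + zinc 0 (w / s) 0 0 s) (s := s - x) (by linarith)
  have h4 := rle_V he (0 + s - (s - x)) (w / s) (0 + s * (w / s)) 0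
    (z - w ^ 2 * (5 / 4 * s - x) + zinc 0 (w / s) 0 0 s + (0 + s * (w / s)) ^ 2 * (s - x)) 0
  have e1 : 0 + s - (s - x) = x := by ring
  have e2 : 0 + s * (w / s) = w := by field_simp; ring
  have e3 : z - w ^ 2 * (5 / 4 * s - x) + zinc 0 (w / s) 0 0 s + w ^ 2 * (s - x) = z := by
    unfold zinc
    field_simp
    ring
  rw [e1, e2, e3] at h4
  rw [e1, e2, e3] at h3
  rw [e2] at h2
  have h5 := rle_free e (S e x 0 w 0 z) q (Finset.univ.filter fun i => i ≠ e 0 ∧ i ≠ e 2 ∧ i ≠ e 4)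
    (by simp)
  have e4 : (WithLp.toLp 2 (fun i => if i ∈ (Finset.univ.filter
      fun i => i ≠ e 0 ∧ i ≠ e 2 ∧ i ≠ e 4) then q i else S e x 0 w 0 z i) :
      EuclideanSpace ℝ (Fin n)) = q := by
    ext i
    simp only [Finset.mem_filter, Finset.mem_univ, true_and]
    split_ifs with h
    · rfl
    · by_cases h0 : i = e 0
      · rw [h0, S_apply0 he]
      · by_cases h2 : i = e 2
        · rw [h2, S_apply2 he]
        · by_cases h4 : i = e 4
          · rw [h4, S_apply4 he]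
          · exact absurd ⟨h0, h2, h4⟩ h
  rw [e4] at h5
  refine ((((h1.trans h2).trans h3).trans h4).trans h5).mono ?_
  have b1 : |w / s| ≤ s := by
    rw [abs_div, abs_of_pos hs0]
    refine le_trans ?_ hρw
    gcongr
  have b2 : ∑ i ∈ (Finset.univ.filter fun i => i ≠ e 0 ∧ i ≠ e 2 ∧ i ≠ e 4),
      |q i - S e x 0 w 0 z i| ≤ n * ρ := by
    calc ∑ i ∈ (Finset.univ.filter fun i => i ≠ e 0 ∧ i ≠ e 2 ∧ i ≠ e 4),
        |q i - S e x 0 w 0 z i| ≤ ∑ i ∈ (Finset.univ.filter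
          fun i => i ≠ e 0 ∧ i ≠ e 2 ∧ i ≠ e 4), ρ := by
          apply Finset.sum_le_sum
          intro i hi
          simp only [Finset.mem_filter, Finset.mem_univ, true_and] at hi
          have : S e x 0 w 0 z i = 0 := by
            simp [S, hi.1, hi.2.1, hi.2.2]
          rw [this, sub_zero]
          exact (hq i).le
      _ ≤ ∑ _i : Fin n, ρ := Finset.sum_le_univ_sum_of_nonneg (fun _ => hρ0.le)
      _ = n * ρ := by simp
  have b3 : |w / s - 0| ≤ s := by rwa [sub_zero]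
  have b4 : |0 - w / s| ≤ s := by rwa [zero_sub, abs_neg]
  have b5 : s = t / 32 := hs
  linarith

end Pool.Agent.Lib.MP_d7bfcb_an
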