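import Pool.Agent.Lib.MP_d7bfcb_an.Barrier

open Set

namespace Pool.Agent.Lib.MP_d7bfcb_an

variable {n : ℕ}

theorem IsPolynomialField.analyticOnNhd
    {X : EuclideanSpace ℝ (Fin n) → EuclideanSpace ℝ (Fin n)} (hX : IsPolynomialField X) :
    AnalyticOnNhd ℝ X univ := by
  rw [← contDiff_omega_iff_analyticOnNhd, contDiff_euclidean]
  intro j
  obtain ⟨P, hP⟩ := hX j
  have h1 : (fun x => X x j) = fun x : EuclideanSpace ℝ (Fin n) =>
      MvPolynomial.eval (fun l => x l) P := funext hP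
  rw [h1]
  clear h1 hP
  induction P using MvPolynomial.induction_on with
  | C a => simpa using contDiff_const
  | add p q hp hq => simpa using hp.add hq
  | mul_X p i hp =>
    have h2 : ContDiff ℝ ⊤ (fun x : EuclideanSpace ℝ (Fin n) => x i) :=
      contDiff_euclidean.1 contDiff_id i
    simpa using hp.mul h2

theorem isPolynomialField_F (e : Fin 5 → Fin n) : IsPolynomialField (fieldF e) := by
  intro j
  by_cases h0 : j = e 0
  · exact ⟨1, fun x => by simp [fieldF, h0]⟩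
  by_cases h2 : j = e 2
  · exact ⟨MvPolynomial.X (e 1), fun x => by
      have h3 : ¬ (e 2 = e 0) := by rw [← h2]; exact h0
      simp [fieldF, h2, h3]⟩
  by_cases h4 : j = e 4
  · refine ⟨MvPolynomial.X (e 0) ^ 2 * MvPolynomial.X (e 1) ^ 2 -
      (MvPolynomial.C (1 / 4) + MvPolynomial.X (e 3)) * MvPolynomial.X (e 2) ^ 2, fun x => ?_⟩
    have h5 : ¬ (e 4 = e 0) := by rw [← h4]; exact h0
    have h6 : ¬ (e 4 = e 2) := by rw [← h4]; exact h2
    simp [fieldF, h4, h5, h6]
  · exact ⟨0, fun x => by simp [fieldF, h0, h2, h4]⟩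

theorem isPolynomialField_B (e : Fin 5 → Fin n) : IsPolynomialField (fieldB e) := by
  intro j
  by_cases h0 : j = e 0
  · exact ⟨-1, fun x => by simp [fieldB, h0]⟩
  by_cases h4 : j = e 4
  · refine ⟨MvPolynomial.X (e 2) ^ 2, fun x => ?_⟩
    have h5 : ¬ (e 4 = e 0) := by rw [← h4]; exact h0
    simp [fieldB, h4, h5]
  · exact ⟨0, fun x => by simp [fieldB, h0, h4]⟩

theorem isPolynomialField_D (i : Fin n) (c : ℝ) : IsPolynomialField (fieldD i c) := by
  intro j
  by_cases h0 : j = i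
  · exact ⟨MvPolynomial.C c, fun x => by simp [fieldD, h0]⟩
  · exact ⟨0, fun x => by simp [fieldD, h0]⟩

theorem isPolynomialField_of_mem {e : Fin 5 → Fin n}
    {X : EuclideanSpace ℝ (Fin n) → EuclideanSpace ℝ (Fin n)} (hX : X ∈ fieldSet e) :
    IsPolynomialField X := by
  rcases hX with rfl | rfl | ⟨i, -, -, -, rfl | rfl⟩
  · exact isPolynomialField_F e
  · exact isPolynomialField_B e
  · exact isPolynomialField_D i 1
  · exact isPolynomialField_D i (-1)

theorem fieldSet_finite (e : Fin 5 → Fin n) : (fieldSet e).Finite := by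
  have h : fieldSet e ⊆ {fieldF e} ∪ ({fieldB e} ∪ ((range fun i => fieldD i 1) ∪
      (range fun i => fieldD i (-1)))) := by
    rintro X (rfl | rfl | ⟨i, -, -, -, rfl | rfl⟩)
    · exact Or.inl rfl
    · exact Or.inr (Or.inl rfl)
    · exact Or.inr (Or.inr (Or.inl ⟨i, rfl⟩))
    · exact Or.inr (Or.inr (Or.inr ⟨i, rfl⟩))
  refine Finite.subset ?_ h
  exact (finite_singleton _).union ((finite_singleton _).union
    ((finite_range _).union (finite_range _)))

theorem reach_loop {e : Fin 5 → Fin n} (he : Function.Injective e) {s : ℝ} (hs : 0 < s) :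
    Reach (fieldSet e) s (0 : EuclideanSpace ℝ (Fin n)) 0 := by
  set u : EuclideanSpace ℝ (Fin n) := fieldD (e 1) 1 0 with hu
  have h1 : fieldD (e 1) 1 ∈ fieldSet e :=
    Or.inr (Or.inr ⟨e 1, by simp [he.eq_iff], by simp [he.eq_iff], by simp [he.eq_iff],
      Or.inl rfl⟩)
  have h2 : fieldD (e 1) (-1) ∈ fieldSet e :=
    Or.inr (Or.inr ⟨e 1, by simp [he.eq_iff], by simp [he.eq_iff], by simp [he.eq_iff],
      Or.inr rfl⟩)
  have hneg : ∀ q, fieldD (e 1) (-1) q = -u := by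
    intro q
    ext j
    by_cases hj : j = e 1
    · simp [fieldD, hu, hj]
    · simp [fieldD, hu, hj]
  have d1 : ∀ r : ℝ, HasDerivAt (fun r : ℝ => r • u) (fieldD (e 1) 1 (r • u)) r := by
    intro r
    have := (hasDerivAt_id r).smul_const u
    simpa [hu, fieldD] using this
  have d2 : ∀ r : ℝ, HasDerivAt (fun r : ℝ => (s / 2) • u - r • u)
      (fieldD (e 1) (-1) ((s / 2) • u - r • u)) r := by
    intro r
    have := ((hasDerivAt_id r).smul_const u).const_sub ((s / 2) • u)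
    rw [hneg]
    simpa using this
  have r1 := Reach.step (Reach.refl (𝓕 := fieldSet e) (0 : EuclideanSpace ℝ (Fin n)))
    _ h1 (s / 2) (by positivity) (fun r : ℝ => r • u) (by simp) d1
  have r2 := Reach.step r1 _ h2 (s / 2) (by positivity)
    (fun r : ℝ => (s / 2) • u - r • u) (by simp) d2
  have e1 : (0 : ℝ) + s / 2 + s / 2 = s := by ring
  have e2 : (s / 2) • u - (s / 2) • u = 0 := sub_self _
  simpa [e1, e2] using r2

theorem stlc {k : ℕ} {f : Fin k → EuclideanSpace ℝ (Fin n) → EuclideanSpace ℝ (Fin n)}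
    {e : Fin 5 → Fin n} (he : Function.Injective e) (hf : range f = fieldSet e) : STLC f := by
  intro t ht
  obtain ⟨ρ, hρ, h⟩ := exists_nbhd he ht
  rw [mem_interior_iff_mem_nhds]
  refine Filter.mem_of_superset (Metric.ball_mem_nhds 0 hρ) ?_
  intro q hq
  rw [mem_ball_zero_iff] at hq
  have h1 := h q (fun i => lt_of_le_of_lt (by simpa using PiLp.norm_apply_le q i) hq)
  rw [← hf] at h1
  refine h1.mem_attainableSet (by linarith) ?_
  intro s hs
  rw [hf]
  exact reach_loop he hs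

theorem not_subset {k : ℕ} {f : Fin k → EuclideanSpace ℝ (Fin n) → EuclideanSpace ℝ (Fin n)}
    {e : Fin 5 → Fin n} (he : Function.Injective e) (hf : range f = fieldSet e) (N : ℝ) :
    ∃ t₀ > 0, ∀ t : ℝ, 0 < t → t < t₀ →
      ¬ Metric.closedBall (0 : EuclideanSpace ℝ (Fin n)) (t ^ N) ⊆ attainableSet f t := by
  obtain ⟨M, hM⟩ := exists_nat_ge N
  refine ⟨min (1 / 100) (1 / (16 * ((2 * M + 2).factorial : ℝ))), by positivity, ?_⟩
  intro t ht ht0 hsub
  have ht1 : t < 1 / 100 := ht0.trans_le (min_le_left _ _)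
  have ht2 : t < 1 / (16 * ((2 * M + 2).factorial : ℝ)) := ht0.trans_le (min_le_right _ _)
  set μ := √t with hμdef
  have hμ0 : 0 < μ := Real.sqrt_pos.2 ht
  have hμt : μ ^ 2 = t := Real.sq_sqrt ht.le
  have hμ : μ ≤ 1 / 10 := by
    rw [hμdef, Real.sqrt_le_left (by norm_num)]
    norm_num
    linarith
  have hexp : 1 < Real.exp (2 / μ) := by
    rw [Real.one_lt_exp_iff]
    positivity
  set β := (Real.exp (2 / μ) - 1) / μ ^ 4 with hβdef
  have hβ : 0 < β := by
    have : 0 < Real.exp (2 / μ) - 1 := by linarith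
    positivity
  have hlog : μ * Real.log (1 + β * (μ ^ 2) ^ 2) ≤ 2 := by
    have h1 : 1 + β * (μ ^ 2) ^ 2 = Real.exp (2 / μ) := by
      rw [hβdef]
      field_simp
      ring
    rw [h1, Real.log_exp]
    rw [mul_div_cancel₀ _ hμ0.ne']
  have hmem : S e 0 0 0 0 (-(t ^ N)) ∈ Metric.closedBall (0 : EuclideanSpace ℝ (Fin n)) (t ^ N) := by
    rw [mem_closedBall_zero_iff]
    have h1 : S e 0 0 0 0 (-(t ^ N)) = EuclideanSpace.single (e 4) (-(t ^ N)) := by
      ext j
      by_cases hj : j = e 4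
      · simp [S, hj, he.eq_iff]
      · simp [S, hj]
    rw [h1, PiLp.norm_single, norm_neg, Real.norm_eq_abs,
      abs_of_pos (Real.rpow_pos_of_pos ht N)]
  have hatt := hsub hmem
  rw [← hμt] at hatt
  have hb := barrier he (fun i => by rw [← hf]; exact mem_range_self i) hμ0 hμ hβ hlog hatt
  rw [Phi, S_apply4 he, S_apply2 he, S_apply0 he] at hb
  rw [hμt] at hb
  -- `t ^ N ≤ 16 μ ^ 8 / β`
  have hb1 : t ^ N ≤ 16 * μ ^ 8 / β := by
    have : alph μ β 0 * (0 : ℝ) ^ 2 = 0 := by ring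
    linarith
  -- lower bound for `β`
  have h3 : (2 / μ) ^ (2 * M + 2) / ((2 * M + 2).factorial : ℝ) ≤ Real.exp (2 / μ) - 1 := by
    have h4 := Real.sum_le_exp_of_nonneg (x := 2 / μ) (by positivity) (2 * M + 3)
    rw [Finset.sum_range_succ, Finset.sum_range_succ'] at h4
    have h5 : 0 ≤ ∑ k ∈ Finset.range (2 * M + 1), (2 / μ) ^ (k + 1) / ((k + 1).factorial : ℝ) :=
      Finset.sum_nonneg (fun k _ => by positivity)
    simp only [pow_zero, Nat.factorial_zero, Nat.cast_one, div_one] at h4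
    linarith
  have hfac : (0 : ℝ) < ((2 * M + 2).factorial : ℝ) := by positivity
  have h6 : (2 / μ) ^ (2 * M + 2) = 4 ^ (M + 1) / t ^ (M + 1) := by
    have h7 : 2 * M + 2 = 2 * (M + 1) := by ring
    rw [h7, pow_mul, div_pow, hμt, div_pow]
    norm_num
  have h8 : t ^ (M : ℕ) ≤ 16 * μ ^ 8 / β := by
    refine le_trans ?_ hb1
    rw [← Real.rpow_natCast]
    exact Real.rpow_le_rpow_of_exponent_ge ht (by linarith) hM
  have h9 : β * t ^ M ≤ 16 * μ ^ 8 := by
    rw [le_div_iff₀ hβ] at h8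
    linarith
  have h10 : 4 ^ (M + 1) / t ^ (M + 1) / ((2 * M + 2).factorial : ℝ) ≤ β * μ ^ 4 := by
    rw [← h6, hβdef]
    refine h3.trans (le_of_eq ?_)
    field_simp
  have h11 : (4 : ℝ) ^ (M + 1) ≤ β * μ ^ 4 * (t ^ (M + 1) * ((2 * M + 2).factorial : ℝ)) := by
    rw [div_div, div_le_iff₀ (by positivity)] at h10
    exact h10
  have h12 : β * μ ^ 4 * (t ^ (M + 1) * ((2 * M + 2).factorial : ℝ)) =
      (β * t ^ M) * (μ ^ 4 * t * ((2 * M + 2).factorial : ℝ)) := by ring
  have h13 : (β * t ^ M) * (μ ^ 4 * t * ((2 * M + 2).factorial : ℝ)) ≤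
      16 * μ ^ 8 * (μ ^ 4 * t * ((2 * M + 2).factorial : ℝ)) :=
    mul_le_mul_of_nonneg_right h9 (by positivity)
  have h14 : 16 * μ ^ 8 * (μ ^ 4 * t * ((2 * M + 2).factorial : ℝ)) =
      (t * (16 * ((2 * M + 2).factorial : ℝ))) * μ ^ 12 := by ring
  have h15 : t * (16 * ((2 * M + 2).factorial : ℝ)) < 1 := by
    rwa [lt_div_iff₀ (by positivity)] at ht2
  have h16 : μ ^ 12 ≤ 1 := pow_le_one₀ hμ0.le (by linarith)
  have h17 : (1 : ℝ) ≤ 4 ^ (M + 1) := one_le_pow₀ (by norm_num)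
  have h18 : (t * (16 * ((2 * M + 2).factorial : ℝ))) * μ ^ 12 < 1 := by
    calc (t * (16 * ((2 * M + 2).factorial : ℝ))) * μ ^ 12
        ≤ (t * (16 * ((2 * M + 2).factorial : ℝ))) * 1 :=
          mul_le_mul_of_nonneg_left h16 (by positivity)
      _ < 1 := by linarith
  linarith

end Pool.Agent.Lib.MP_d7bfcb_an
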